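import Pool.Graph.R_pool_sql_team_seeded_2aa45f1a.Q328.EB.Disj
import Pool.Graph.R_seed8.H642R2.TMSim
import Pool.Graph.R_seed8.NPC.Dec
/-!
# Edge Blocking is EXPTIME-complete already when the edges of each player form an acyclic digraph

On acyclic directed graphs the outcome problem is PSPACE-complete. In the library's reduction from
alternating Boolean register machines no edge can be used by both players; here it is shown that
neither the edges of Left nor the edges of Right contain a directed cycle (only their union does):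
explicit ranks decrease along the edges of each player.
-/

set_option autoImplicit false
namespace Pool.Agent.Results.MP_817c3f_lc.AcyclicForEachPlayer

open Pool.Agent.NPC Pool.Agent.NPC.Q328.EB Pool.Agent.H820R2.SS Pool.Agent.NPC.Q328.TH
open Pool.Agent.NPC.ANN (Lb rl pm us up ok3 Forces edg Bd)

/-- a number which decreases along the edges of Left -/
def rkL (M : ARM) (z : Lb) : ℕ :=
  if z.1 = 18 ∨ z.1 = 20 then z.2.1 else
    M.1.length + 1 + (if z.1 = 17 then (if z.2.2.1 = 2 then 1 else 0)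
      else [2, 1, 1, 2, 1, 2, 1, 1, 3, 3, 2, 2, 1, 2, 3, 2, 1].getD z.1 0)

/-- a number which decreases along the edges of Right -/
def rkR (M : ARM) (z : Lb) : ℕ :=
  if z.1 = 19 then z.2.1 else
    M.1.length + 1 + (if z.1 = 17 then [1, 1, 0, 2].getD z.2.2.1 0
      else [1, 2, 2, 1, 2, 1, 2, 2, 1, 1, 2, 2, 4, 3, 1, 3, 2].getD z.1 0)

theorem rkL_lt {M : ARM} {u v : Lb} (h : ladj M u v = true) : rkL M v < rkL M u := by
  obtain ⟨k, a, b, c⟩ := u
  obtain ⟨k', a', b', c'⟩ := v
  have h0 : (up M a b c).2.toNat < 2 := Bool.toNat_lt _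
  simp only [ladj, rj, rv, yadj, cond_true, Bool.or_eq_true, Bool.and_eq_true,
    decide_eq_true_eq, Prod.mk.injEq] at h
  unfold rkL
  simp only
  rcases h with ⟨rfl, rfl | ⟨rfl, -⟩⟩ | ⟨rfl, rfl⟩ |
    ⟨rfl, ⟨-, rfl, -⟩ | ⟨-, rfl | rfl, -⟩⟩ |
    ⟨rfl | rfl, rfl, -⟩ | ⟨rfl | rfl, ⟨rfl, -⟩ | ⟨rfl, -, rfl⟩⟩ |
    ⟨rfl, rfl, -, rfl⟩ | ⟨rfl, rfl, -⟩ | ⟨rfl, ⟨rfl, -⟩ | ⟨rfl, -, h2⟩⟩ |
    ⟨(((((rfl | rfl) | rfl) | rfl) | rfl) | rfl) | rfl, rfl, rfl⟩ | ⟨rfl, rfl, -, rfl, rfl⟩ |
    ⟨rfl, rfl, h2⟩ | ⟨rfl, rfl, h2⟩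
  all_goals first
    | (simp; done)
    | (simp; omega)
    | (rw [if_neg (show ¬ b' = 2 by omega)]; simp; done)

theorem rkR_lt {M : ARM} {u v : Lb} (h : radj M u v = true) : rkR M v < rkR M u := by
  obtain ⟨k, a, b, c⟩ := u
  obtain ⟨k', a', b', c'⟩ := v
  simp only [radj, rj, yadj, cond_false, Bool.or_eq_true, Bool.and_eq_true,
    decide_eq_true_eq, Prod.mk.injEq] at h
  unfold rkR
  simp only
  rcases h with ⟨rfl, rfl⟩ | ⟨rfl, rfl⟩ | ⟨rfl, ⟨rfl, -⟩ | ⟨rfl, h2, -⟩⟩ |
    ⟨rfl | rfl, ⟨rfl, -⟩ | ⟨rfl, -, h2⟩⟩ | ⟨rfl | rfl, rfl, -, h2⟩ | ⟨rfl, rfl, -⟩ |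
    ⟨rfl, ⟨rfl, -⟩ | ⟨rfl, -, rfl⟩⟩ | ⟨rfl, rfl, -, rfl⟩ | ⟨rfl, rfl, -⟩ |
    ⟨((((rfl | rfl) | rfl) | rfl) | rfl) | rfl, rfl, rfl⟩ |
    ⟨rfl, rfl, -, ⟨h1, rfl⟩ | ⟨rfl, h2⟩⟩ | ⟨rfl, rfl, h2⟩
  all_goals first
    | (simp; done)
    | (simp; omega)
    | (interval_cases b <;> simp <;> done)
    | (interval_cases b' <;> simp <;> done)
    | (rcases (show b' = 0 ∨ b' = 1 by omega) with rfl | rfl <;> simp <;> done)

/-- The directed graph with the edges in `E` has no directed cycle. -/
def Acyclic (E : List (ℕ × ℕ)) : Prop :=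
  ∀ v, ¬ Relation.TransGen (fun x y => (x, y) ∈ E) v v

/-- No edge can be used by both players, and neither the edges of Left nor the edges of Right
contain a directed cycle. -/
def Own (A : EBl) : Prop := Disj A ∧ Acyclic A.2.1.1 ∧ Acyclic A.2.1.2

theorem acyclic_of {M : ARM} {ad : Lb → Lb → Bool} (rk : Lb → ℕ)
    (h : ∀ u v, ad u v = true → rk v < rk u) : Acyclic (edg (vs M) ad) := by
  have key : ∀ x y, Relation.TransGen (fun x y => (x, y) ∈ edg (vs M) ad) x y →
      ∃ u v, ok M u = true ∧ ok M v = true ∧ nu M u = x ∧ nu M v = y ∧ rk v < rk u := by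
    intro x y hxy
    induction hxy with
    | single h1 =>
      obtain ⟨u, v, hu, hv, h2, rfl, rfl⟩ := (mem_edgG enc).1 h1
      exact ⟨u, v, hu, hv, rfl, rfl, h u v h2⟩
    | tail _ h1 ih =>
      obtain ⟨u, v, hu, hv, h2, rfl, rfl⟩ := (mem_edgG enc).1 h1
      obtain ⟨u', v', hu', hv', h3, h4, h5⟩ := ih
      have h6 := nuG_inj enc hv' hu h4
      subst h6
      exact ⟨u', v, hu', hv, h3, rfl, (h _ _ h2).trans h5⟩
  intro x hx
  obtain ⟨u, v, hu, hv, h1, h2, h3⟩ := key x x hx
  have h4 := nuG_inj enc hu hv (h1.trans h2.symm)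
  subst h4
  exact lt_irrefl _ h3

theorem inst_own (c : ℕ) (t : Bool) (M : ARM) : Own (inst c t M) :=
  ⟨inst_disj c t M, acyclic_of (rkL M) fun _ _ => rkL_lt, acyclic_of (rkR M) fun _ _ => rkR_lt⟩

/-- Hardness for the three outcomes. -/
theorem hard_own {W : EBl → Prop} (hW : W = MoverWins ∨ W = OtherWins ∨ W = Drawn)
    {L : Set (List Bool)} (hL : InEXPTIME L) :
    ∃ f : List Bool → List Bool, PolyTime f ∧
      ∀ x, ∃ A : EBl, f x = bits A ∧ IsPosition A ∧ Own A ∧ (x ∈ L ↔ W A) := by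
  rcases hW with rfl | rfl | rfl
  · obtain ⟨f, h1, h2, h3⟩ := ARM578.exptime_arm (L := L) hL
    refine ⟨fun x => bits (inst 0 true (f x)),
      PC.toPolyTime_bits (poly_inst 0 true) f h1, fun x => ⟨_, rfl,
        inst_isPosition 0 true (f x), inst_own _ _ _, ?_⟩⟩
    rw [MoverWins, inst_forces (by norm_num), h3 x, ← LW_iff]
    exact (win_G (h2 x) _).symm
  · obtain ⟨f, h1, h2, h3⟩ := ARM578.exptime_arm (L := L) hL
    refine ⟨fun x => bits (inst 1 false (f x)),
      PC.toPolyTime_bits (poly_inst 1 false) f h1, fun x => ⟨_, rfl,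
        inst_isPosition 1 false (f x), inst_own _ _ _, ?_⟩⟩
    rw [OtherWins, inst_forces (by norm_num), h3 x, ← LW_iff]
    exact (lose_I (h2 x) _).symm
  · obtain ⟨f, h1, h2, h3⟩ := ARM578.exptime_arm_compl (L := L) hL
    refine ⟨fun x => bits (inst 0 true (f x)),
      PC.toPolyTime_bits (poly_inst 0 true) f h1, fun x => ⟨_, rfl,
        inst_isPosition 0 true (f x), inst_own _ _ _, ?_⟩⟩
    rw [Drawn, MoverWins, OtherWins, inst_forces (by norm_num), inst_forces (by norm_num)]
    have h4 := h3 x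
    have h5 : Forces (mv (f x)) true (true, ((0, 0, 0, 0), (f x).1.length, cf fun _ => false)) ↔
        ARMAcc (f x) := LW_iff.symm.trans (win_G (h2 x) (fun _ => false))
    rw [h5, ← h4, not_not]
    exact ⟨fun h => ⟨h, not_lose_G _⟩, fun h => h.1⟩

/-- Completeness for `EXPTIME` under polynomial-time many-one reductions. -/
def Complete (L : Set (List Bool)) : Prop :=
  InEXPTIME L ∧ ∀ L' : Set (List Bool), InEXPTIME L' → Reduces L' L

/-- The outcome problem: the positions with property `T` that have the outcome `W`. -/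
def Outcome (W : EBl → Prop) (T : EBl → Prop) : Set (List Bool) :=
  lang (fun A : EBl => IsPosition A ∧ T A ∧ W A)

theorem not_inP {L : Set (List Bool)} (h : Complete L) : ¬ InP L := by
  intro hP
  obtain ⟨L', h1, h2⟩ := exists_exptime_not_p
  exact h2 (InP.of_reduces (h.2 L' h1) hP)

theorem poly_eq_true : NPC.Poly (fun y : List Bool => decide (y = [true])) := by
  fun_prop

/-- **Deciding the outcome of Edge Blocking is EXPTIME-complete already when neither player's edges
contain a directed cycle and no edge can be used by both players.** For each of the three outcomes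
(the player to move can force a win, the other player can, neither can): the outcome problem for all
positions, and for the positions without common edges, is `EXPTIME`-complete and not in `P`; every
language in `EXPTIME` has a polynomial-time many-one reduction to it all of whose values are
positions in which `E_L` and `E_R` are disjoint and both acyclic; and no polynomial-time algorithm
decides the outcome correctly for all these positions. -/
theorem result (W : EBl → Prop) (hW : W = MoverWins ∨ W = OtherWins ∨ W = Drawn) :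
    (Complete (Outcome W (fun _ => True)) ∧ ¬ InP (Outcome W (fun _ => True))) ∧
    (Complete (Outcome W Disj) ∧ ¬ InP (Outcome W Disj)) ∧
    (∀ L : Set (List Bool), InEXPTIME L → ∃ f : List Bool → List Bool, PolyTime f ∧
      ∀ x, ∃ A : EBl, f x = bits A ∧ IsPosition A ∧ Own A ∧ (x ∈ L ↔ W A)) ∧
    ¬ ∃ D : List Bool → List Bool, PolyTime D ∧
      ∀ A : EBl, IsPosition A → Own A → (D (bits A) = [true] ↔ W A) := by
  have key : ∀ (T : EBl → Prop) (q : EBl → Bool), NPC.Poly q → (∀ A, q A = true ↔ T A) →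
      (∀ c t M, T (inst c t M)) → Complete (Outcome W T) := by
    intro T q hq hT hi
    have e : Outcome W T = lang (fun A : EBl => IsPosition A ∧ q A = true ∧ W A) :=
      lang_congr fun A => by rw [hT A]
    rw [e]
    exact ⟨(exp_of hW hq).inEXPTIME, fun L' hL' =>
      hard_of hW (fun c t M => (hT _).2 (hi c t M)) hL'⟩
  have h0 : Complete (Outcome W (fun _ => True)) :=
    key _ (fun _ => true) (NPC.Poly.const _) (fun _ => by simp) (fun _ _ _ => trivial)
  have h1 : Complete (Outcome W Disj) := key _ disjB poly_disjB disjB_iff inst_disj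
  refine ⟨⟨h0, not_inP h0⟩, ⟨h1, not_inP h1⟩, fun L hL => hard_own hW hL, ?_⟩
  rintro ⟨D, hD, h⟩
  obtain ⟨L, hL, hP⟩ := exists_exptime_not_p
  apply hP
  obtain ⟨f, hf, hfA⟩ := hard_own hW hL
  have e1 : PC (fun x : List Bool => x) (fun x : List Bool => x) f :=
    H642R2.TMSim.polyTime_toPC hf
  have e2 : PC (fun x : List Bool => x) (fun x : List Bool => x) D :=
    H642R2.TMSim.polyTime_toPC hD
  have e3 : PC (fun x : List Bool => x) (fun x : List Bool => x) (fun x => D (f x)) :=
    PC.comp e2 e1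
  refine ⟨_, polyTime_test (PC.toPolyTime e3) poly_eq_true, fun x => ?_⟩
  obtain ⟨A, hA, hp, ho, hx⟩ := hfA x
  rw [hx, ← h A hp ho, hA]
  simp

end Pool.Agent.Results.MP_817c3f_lc.AcyclicForEachPlayer
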